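import Pool.Agent.N475.RG.Loc
import Pool.Agent.N24.RW.All

set_option autoImplicit false

/-!
# The Skolem Problem for the random elements of thin groups of matrices

Let `s_0, ..., s_m` be matrices in `SL_d(ℤ)`, `d ≥ 2`, which generate `SL_d(ℤ/q)` for all `q` prime to
some `q₀` (by strong approximation every finite set which generates a Zariski dense subgroup, possibly
of infinite index, is one), and let `g_n = s_{w (n-1)} ... s_{w 0}` for a random word `w`. Almost surely,
for every `D` and for all times `n` outside a set of density zero, the Skolem Problem in its matrix form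
is solved for the matrix `g_n` and ALL vectors `x` and hyperplanes `y ⬝ᵥ z = 0` with entries of `x` and
`y` of absolute value at most `D`: some power `g_n ^ k x`, `k ∈ ℤ`, lies in the hyperplane if and only if
`x` does; and if `x` does not, there is a prime `p` which divides none of the numbers
`y ⬝ᵥ (g_n ^ k x)`, `k ∈ ℤ`, and modulo which this sequence has period `(p - 1) / 2`. In particular no
power of `g_n` has a zero on its diagonal. The exceptional set of matrices does not depend on the group,
and it is null: its closure in the product of the `SL_d(ℤ_p)` over all primes `p` which do not divide `M`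
has Haar measure zero, for all `M`.

The starting result `MatrixOrbits` is about the matrices in boxes of the space of all matrices; the
matrices of determinant one have density zero there, and the groups may have infinite index in
`SL_d(ℤ)`.

Proof. Local analysis: let `p` be a large prime. A positive proportion of `SL_d(ℤ/p)` consists of the
conjugates of the companion matrices with `d` different squares of product one as eigenvalues (counted
with the Schwartz-Zippel lemma), and `GL_d` acts transitively on the pairs `(x, y)` with a given nonzero
value of `y ⬝ᵥ x`; so it suffices to count the triples `(N, x, y)` for a companion matrix `N`, where each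
of the `(p - 1) / 2` equations `y ⬝ᵥ (N ^ k x) = 0` holds for the proportion `1 / p` (as in
`MatrixOrbits`). So the good matrices for fixed `x, y` have at least a positive density in `SL_d(ℤ/p)`.
The Chinese remainder theorem for `SL_d` gives the null sets, and the ergodic theorem for the random walk
on the finite groups `SL_d(ℤ/q)` the statement for random words.
-/

namespace Pool.Agent.Results.MP_8d13b5_lc.RandomMatrices

open Matrix MeasureTheory Filter Topology Pool.Agent.N24.RW
open Pool.Agent.N475.RG (gel rd GNull hyp PrimeCert)

/-- The Skolem Problem for the matrix `g`, all vectors `x` and all hyperplanes `y ⬝ᵥ z = 0`, where `x`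
and `y` have entries of absolute value at most `D`: a power `g ^ k x`, `k ∈ ℤ`, lies in the hyperplane
if and only if `x` does, and if `x` does not, there is a certificate: a prime `p` which divides none of
the numbers `y ⬝ᵥ (g ^ k x)`, `k ∈ ℤ`, modulo which this sequence has period `(p - 1) / 2`. -/
def Solved (d D : ℕ) (g : Matrix.SpecialLinearGroup (Fin d) ℤ) : Prop :=
  ∀ x y : Fin d → ℤ, (∀ i, |x i| ≤ (D : ℤ)) → (∀ i, |y i| ≤ (D : ℤ)) →
    ((∃ k : ℤ, hyp g x y k = 0) ↔ y ⬝ᵥ x = 0) ∧ (y ⬝ᵥ x ≠ 0 → ∃ p, PrimeCert p (hyp g x y))

theorem result (d : ℕ) (hd : 2 ≤ d) :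
    -- the exceptional sets
    (∀ D : ℕ, GNull {g : Matrix.SpecialLinearGroup (Fin d) ℤ | ¬ Solved d D g}) ∧
    -- the random elements
    ∀ W : Walk (Fin d), ∀ᵐ w ∂(words W.m), ∀ D : ℕ, Tendsto (fun N : ℕ =>
      (({n : ℕ | n < N ∧ ¬ Solved d D (gel W w n)}.ncard : ℕ) : ℝ) / (N : ℝ)) atTop (𝓝 0) := by
  have h1 : ∀ D : ℕ, GNull {g : Matrix.SpecialLinearGroup (Fin d) ℤ | ¬ Solved d D g} := by
    intro D
    refine (Pool.Agent.N475.RG.null_all d hd D).mono ?_
    intro g hg hg2
    apply hg
    intro x y hx hy
    refine ⟨⟨fun h => ?_, fun h => ⟨0, ?_⟩⟩, fun h => hg2 x y hx hy h⟩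
    · by_contra h0
      obtain ⟨k, hk⟩ := h
      obtain ⟨p, -, hp, -⟩ := hg2 x y hx hy h0
      apply hp k
      rw [hk]
      exact dvd_zero _
    · unfold hyp
      rw [zpow_zero, Matrix.SpecialLinearGroup.coe_one, Matrix.one_mulVec]
      exact h
  refine ⟨h1, fun W => ?_⟩
  rw [ae_all_iff]
  intro D
  have h2 := Pool.Agent.N475.RG.g_main t_ERG W _ (h1 D)
  exact h2

end Pool.Agent.Results.MP_8d13b5_lc.RandomMatrices
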