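import Pool.Agent.N475.RS.Loc
import Pool.Agent.N24.RW.All

set_option autoImplicit false

/-!
# The Skolem Problem for recurrences whose data are random orbits of thin groups

Let `s_0, ..., s_m` be matrices in `SL_r(ℤ)`, `r ≥ 2`, which generate `SL_r(ℤ/q)` for all `q` prime to
some `q₀` (by strong approximation every finite set which generates a Zariski dense subgroup, possibly
of infinite index, is one), let `v` be a nonzero integral vector and let
`v_n = s_{w (n-1)} ... s_{w 0} v` for a random word `w`. Consider linear recurrences of order `d` whose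
`d` coefficients, and whose initial values at the places in a set `J`, are different coordinates of
`v_n`; the other initial values are arbitrary integers with `|b_i| ≤ D`. (For `J = ∅` the coefficients
are random and ALL small initial values are considered at once, for `J = {0, ..., d - 1}` the whole
input is random.) Almost surely, for every `D` and for all times `n` outside a set of density zero, the
Skolem Problem is solved for all these sequences simultaneously: the sequence has a zero term if and
only if one of its `d` initial values is zero; one errorless algorithm halts on every input which codes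
the sequence; and if all initial values are nonzero there is a prime `p` which divides no term, modulo
which the sequence has period `p - 1`, and the total function `f`, which looks only at the primes up to
`p`, recognises the sequence. The exceptional sets of data do not depend on the group and on the vector,
and they are `ProNull`: their closures in the products of the `ℤ_p ^ (d + |J|)` over all primes `p`
which do not divide `M` have Haar measure zero, for all `M`; this is stronger than density zero in boxes.

Only linearly many (in `n`) vectors occur along an orbit whose size is `e ^ (c n)`, and the group may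
have infinite index, so nothing follows from results about boxes.

Proof. For nonzero initial values the good coefficient vectors modulo a prime `p` of the progression
`1 (mod 2 d)` have density at least a positive constant (starting result `AlmostAllCoefficients`), and
so have the good vectors of coefficients and initial values in `J`. The local criterion, a finite union
over the prescribed initial values and the ergodic theorem for the random walk on the orbits of
`SL_r(ℤ/q)` (engine of helper24) give the result.
-/

namespace Pool.Agent.Results.MP_8d13b5_lc.RandomOrbits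

open MeasureTheory Filter Topology
open Pool.Agent.H684R3.Smo Pool.Agent.H884R2.Sko Pool.Agent.H692R2.USS Pool.Agent.N24.RW
open Pool.Agent.N475.RS (Cert init)

/-- The vector `x` consists of the coefficients `c` of a recurrence of order `d` and of its initial
values at the places in `J`. For all integers `b_i` of absolute value at most `D`, prescribed as the
other initial values, and the sequence `u` with `u_(n+d) = ∑ c_i u_(n+d-i)` and these initial values:
`u` has a zero term if and only if one of the initial values is zero, and the algorithm `A` halts on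
every input which codes `u` as a linear recurrence sequence; and if no initial value is zero, there is
a prime `p` such that no term of `u` is divisible by `p`, `u` has period `p - 1` modulo `p`, and
`f (p, z)` is true for every input `z` which codes `u`. -/
def Solved (A : List (ℕ × ℕ) × List (ℕ × ℕ) →. Bool)
    (f : ℕ × (List (ℕ × ℕ) × List (ℕ × ℕ)) → Bool) (d : ℕ) (J : Finset (Fin d)) (D : ℕ)
    (x : Fin d ⊕ J → ℤ) : Prop :=
  ∀ (b : Fin d → ℤ) (u : ℕ → ℤ), (∀ i, |b i| ≤ (D : ℤ)) →
    IsSeq (fun i => x (Sum.inl i)) (init J b x) u →
    ((∃ n, u n = 0) ↔ ∃ i, init J b x i = 0) ∧ (∀ z, IsLRS z u → (A z).Dom) ∧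
    ((∀ i, init J b x i ≠ 0) → ∃ p : ℕ, Cert p u ∧ ∀ z, IsLRS z u → f (p, z) = true)

theorem result :
    -- one algorithm for all integer linear recurrence sequences, which never errs
    ∃ A : List (ℕ × ℕ) × List (ℕ × ℕ) →. Bool, Partrec A ∧
      (∀ z v, IsLRS z v → ∀ b ∈ A z, (b = true ↔ ∃ n, v n = 0)) ∧
      -- one total computable function, which reads all linear recurrence sequences and never errs
      ∃ f : ℕ × (List (ℕ × ℕ) × List (ℕ × ℕ)) → Bool, Computable f ∧
        (∀ (y : ℕ) (z : List (ℕ × ℕ) × List (ℕ × ℕ)) (v : ℕ → ℤ), IsLRS z v → f (y, z) = true →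
          ∀ n, v n ≠ 0) ∧
        -- all orders and all sets of places
        ∀ (d : ℕ) (J : Finset (Fin d)), 1 ≤ d →
          -- the exceptional sets
          (∀ D : ℕ, ProNull {x : Fin d ⊕ J → ℤ | ¬ Solved A f d J D x}) ∧
          -- random orbits
          ∀ (κ : Type) [Fintype κ] [DecidableEq κ], 2 ≤ Fintype.card κ →
            ∀ (W : Walk κ) (v : κ → ℤ), v ≠ 0 → ∀ g : Fin d ⊕ J → κ, Function.Injective g →
              ∀ᵐ w ∂(words W.m), ∀ D : ℕ, Tendsto (fun N : ℕ =>
                (({n : ℕ | n < N ∧ ¬ Solved A f d J D (fun i => orb W v w n (g i))}.ncard : ℕ) : ℝ) /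
                  (N : ℝ)) atTop (𝓝 0) := by
  classical
  obtain ⟨𝒜, h𝒜, h𝒜e⟩ := algo
  obtain ⟨f, hf, hfe⟩ := t10
  refine ⟨𝒜, h𝒜, fun z v hv => (h𝒜e z v hv).1, f, hf, fun y z v hv ht n hn => ?_,
    fun d J hd => ?_⟩
  · obtain ⟨q, _, _, hq⟩ := (hfe y z v hv).1 ht
    apply hq n
    rw [hn]
    exact dvd_zero _
  have hsol : ∀ (D : ℕ) (x : Fin d ⊕ J → ℤ), (∀ (b : Fin d → ℤ) (u : ℕ → ℤ),
      (∀ i, |b i| ≤ (D : ℤ)) → (∀ i, init J b x i ≠ 0) →
      IsSeq (fun i => x (Sum.inl i)) (init J b x) u → ∃ p, Cert p u) → Solved 𝒜 f d J D x := by
    intro D x hx b u hbD hu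
    refine ⟨⟨?_, ?_⟩, fun z hz => ?_, fun hb => ?_⟩
    · rintro ⟨n, hn⟩
      by_contra hcon
      push Not at hcon
      obtain ⟨p, hp⟩ := hx b u hbD hcon hu
      apply (hp.2 n).1
      rw [hn]
      exact dvd_zero _
    · rintro ⟨i, hi⟩
      exact ⟨i, by rw [hu.1 i, hi]⟩
    · rw [(h𝒜e z u hz).2]
      by_cases hb : ∃ i, init J b x i = 0
      · obtain ⟨i, hi⟩ := hb
        exact Or.inl ⟨i, by rw [hu.1 i, hi]⟩
      · push Not at hb
        obtain ⟨p, hp⟩ := hx b u hbD hb hu
        exact Or.inr ⟨p, hp.1, fun n => (hp.2 n).1⟩
    · obtain ⟨p, hp⟩ := hx b u hbD hb hu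
      refine ⟨p, hp, fun z hz => ?_⟩
      rw [hfe _ _ _ hz]
      exact ⟨p, le_rfl, hp.1, fun n => (hp.2 n).1⟩
  have n1 : ∀ D : ℕ, ProNull {x : Fin d ⊕ J → ℤ | ¬ Solved 𝒜 f d J D x} := by
    intro D
    refine (clo (Fin d ⊕ J)).1 _ _ ?_ (Pool.Agent.N475.RS.null_all crit clo d hd J D)
    intro x hx hx2
    exact hx (hsol D x hx2)
  refine ⟨n1, fun κ _ _ hκ W v hv g hg => ?_⟩
  rw [ae_all_iff]
  intro D
  have h2 := (clo (Fin d ⊕ J)).2.2.2.2 κ g hg _ (n1 D)
  have h3 := main κ hκ W v hv _ h2
  exact h3

end Pool.Agent.Results.MP_8d13b5_lc.RandomOrbits
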