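import Pool.Agent.N84.TS.Main
import Pool.Agent.Results.MP_8d13b5_lc.AlmostAllCoefficients

set_option autoImplicit false

/-!
# The Skolem Problem along thin sequences of coefficient vectors, for all small initial values

Let `P_1, ..., P_d` be generalised polynomials `P(t) = ∑ a_x t ^ x` (finitely many real exponents,
real coefficients) whose leading exponents are distinct, positive and not integers and have positive
coefficients; for example `t ^ √2, π t ^ (1 / 2) - t ^ (1 / 3), ...`. Consider the recurrences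

`u_{m + d} = ⌊P_1(n)⌋ u_{m + d - 1} + ... + ⌊P_d(n)⌋ u_m`,

one for every integer `n`. For all but the proportion `N ^ (-δ)` of the integers `n` in `(N, 2 N]`, and
also for all but the proportion `N ^ (-δ)` of the PRIMES `n` in `(N, 2 N]`, the Skolem Problem is solved
for ALL initial values with `|a_i| ≤ N ^ δ` simultaneously: `u` has a zero term if and only if one of
the `d` initial values is zero, and one errorless algorithm halts on every input which codes `u`. If
the initial values are nonzero there is a prime `p ≤ (log N) ^ B`, where `B` depends only on `d`,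
which divides no term of `u` and modulo which `u` has period `p - 1`, and the total function `f`, which
looks only at the primes up to `(log N) ^ B`, recognises `u`.

In the starting results the coefficients run through a box (of any centre), or the initial values do;
of the `N ^ (c_1 + ... + c_d)` coefficient vectors of the relevant box only `N` occur here, or
`N / log N`.

Proof. By the exponential sums of the starting library the vectors `(⌊P_1(n)⌋, ..., ⌊P_d(n)⌋)` are
equidistributed modulo all integers `q ≤ N ^ κ` with the error `O(N ^ (-κ))`, over the integers and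
over the primes (engine of helper666). For nonzero initial values the good coefficient vectors modulo
`p ≡ 1 (mod 2 d)` have density at least a positive constant (starting result `AlmostAllCoefficients`).
If the primes of `m` blocks `B_j` of `K` primes up to `y`, `y ^ (2 m) ≤ N ^ κ`, are all bad then
`∏_j (∑_{p in B_j} (1_good - γ_p)) ^ 2 ≥ (κ K) ^ (2 m)`, while the mean of this product over `n` is at
most `K ^ m + K ^ (2 m) N ^ (-κ)`, by the Chinese remainder theorem. This gives the exceptional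
proportion `N ^ (-δ)` with primes `p ≤ (log N) ^ B` for one vector of initial values, with an estimate
uniform in the initial values, and a union bound finishes the proof.
-/

namespace Pool.Agent.Results.MP_8d13b5_lc.ThinCoefficients

open Pool.Agent.H884R2.Sko Pool.Agent.H692R2.USS
open Pool.Agent.Results.MP_8d13b5_lc.AlmostAllCoefficients (Easy)

/-- `e` is the largest exponent of the generalised polynomial `∑ a_x t ^ x`; it is positive and not an
integer and has a positive coefficient. -/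
def Admissible (F : Finset ℝ) (a : ℝ → ℝ) (e : ℝ) : Prop :=
  e ∈ F ∧ (∀ x ∈ F, x ≤ e) ∧ 0 < e ∧ (∀ m : ℕ, e ≠ m) ∧ 0 < a e

/-- The vector of the integer parts of the values at `n` of the generalised polynomials. -/
noncomputable def coeffs {d : ℕ} (F : Fin d → Finset ℝ) (a : Fin d → ℝ → ℝ) (n : ℕ) (i : Fin d) : ℤ :=
  ⌊∑ x ∈ F i, a i x * (n : ℝ) ^ x⌋

theorem result :
    -- one algorithm for all integer linear recurrence sequences, which never errs
    ∃ A : List (ℕ × ℕ) × List (ℕ × ℕ) →. Bool, Partrec A ∧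
      (∀ z v, IsLRS z v → ∀ b ∈ A z, (b = true ↔ ∃ n, v n = 0)) ∧
      -- one total computable function, which reads all linear recurrence sequences and never errs
      ∃ f : ℕ × (List (ℕ × ℕ) × List (ℕ × ℕ)) → Bool, Computable f ∧
        (∀ (y : ℕ) (z : List (ℕ × ℕ) × List (ℕ × ℕ)) (v : ℕ → ℤ), IsLRS z v → f (y, z) = true →
          ∀ n, v n ≠ 0) ∧
        -- all orders, all generalised polynomials
        ∀ d : ℕ, 1 ≤ d → ∃ B : ℝ, 0 < B ∧
          ∀ (F : Fin d → Finset ℝ) (a : Fin d → ℝ → ℝ) (e : Fin d → ℝ),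
            (∀ i, Admissible (F i) (a i) (e i)) → Function.Injective e →
            ∃ δ : ℝ, 0 < δ ∧ ∃ N₀ : ℕ, ∀ N : ℕ, N₀ ≤ N →
              ({n : ℕ | n ∈ Finset.Ioc N (2 * N) ∧
                  ¬ Easy A f d ((N : ℝ) ^ δ) (Real.log N ^ B) (coeffs F a n)}.ncard : ℝ) ≤
                (N : ℝ) ^ (-δ) * N ∧
              ({n : ℕ | n ∈ (Finset.Ioc N (2 * N)).filter Nat.Prime ∧
                  ¬ Easy A f d ((N : ℝ) ^ δ) (Real.log N ^ B) (coeffs F a n)}.ncard : ℝ) ≤
                (N : ℝ) ^ (-δ) * ((Finset.Ioc N (2 * N)).filter Nat.Prime).card := by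
  classical
  obtain ⟨𝒜, h𝒜, h𝒜e⟩ := algo
  obtain ⟨f, hf, hfe⟩ := Pool.Agent.H684R3.Smo.t10
  refine ⟨𝒜, h𝒜, fun z v hv => (h𝒜e z v hv).1, f, hf, fun y z v hv ht n hn => ?_,
    fun d hd => ?_⟩
  · obtain ⟨q, _, _, hq⟩ := (hfe y z v hv).1 ht
    apply hq n
    rw [hn]
    exact dvd_zero _
  · have heasy : ∀ (X Y : ℝ) (c : Fin d → ℤ), Pool.Agent.R851.SK.EasyF d X Y c →
        Easy 𝒜 f d X Y c := by
      intro X Y c hc a u haX hu
      refine ⟨⟨?_, ?_⟩, fun z hz => ?_, fun ha => ?_⟩
      · rintro ⟨n, hn⟩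
        by_contra hcon
        push Not at hcon
        obtain ⟨p, hp, hpY, hpv⟩ := hc a u hcon haX hu
        apply (hpv n).1
        rw [hn]
        exact dvd_zero _
      · rintro ⟨i, hi⟩
        exact ⟨i, by rw [hu.1 i, hi]⟩
      · rw [(h𝒜e z u hz).2]
        by_cases ha : ∃ i, a i = 0
        · obtain ⟨i, hi⟩ := ha
          exact Or.inl ⟨i, by rw [hu.1 i, hi]⟩
        · push Not at ha
          obtain ⟨p, hp, -, hpv⟩ := hc a u ha haX hu
          exact Or.inr ⟨p, hp, fun n => (hpv n).1⟩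
      · obtain ⟨p, hp, hpY, hpv⟩ := hc a u ha haX hu
        refine ⟨⟨p, hp, hpY, hpv⟩, fun z hz => ?_⟩
        rw [hfe _ _ _ hz]
        exact ⟨p, Nat.le_floor hpY, hp, fun n => (hpv n).1⟩
    obtain ⟨B, hB, hmain⟩ := Pool.Agent.N84.TS.rec_main d hd
    refine ⟨B, hB, fun F a e h he => ?_⟩
    have : Nonempty (Fin d) := ⟨⟨0, hd⟩⟩
    obtain ⟨⟨κ₁, hκ₁, g₁⟩, ⟨κ₂, hκ₂, g₂⟩⟩ := Pool.Agent.N666.TM.fl_well (ι := Fin d) (F := F) (a := a)
      (c := e) h he
    obtain ⟨δ₁, hδ₁, k₁⟩ := hmain κ₁ hκ₁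
    obtain ⟨δ₂, hδ₂, k₂⟩ := hmain κ₂ hκ₂
    obtain ⟨N₁, hN₁⟩ := k₁ (fun N => Finset.Ioc N (2 * N)) (coeffs F a) g₁
    obtain ⟨N₂, hN₂⟩ := k₂ (fun N => (Finset.Ioc N (2 * N)).filter Nat.Prime) (coeffs F a) g₂
    refine ⟨min δ₁ δ₂, lt_min hδ₁ hδ₂, max (max N₁ N₂) 1, fun N hN => ?_⟩
    have hN1 : 1 ≤ N := (le_max_right _ _).trans hN
    have hNr : (1 : ℝ) ≤ N := by exact_mod_cast hN1
    have hNN₁ : N₁ ≤ N := (le_max_left _ _).trans ((le_max_left _ _).trans hN)
    have hNN₂ : N₂ ≤ N := (le_max_right _ _).trans ((le_max_left _ _).trans hN)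
    have key : ∀ (δ' : ℝ), min δ₁ δ₂ ≤ δ' → ∀ S : Finset ℕ,
        ((S.filter fun n => ¬ Pool.Agent.R851.SK.EasyF d ((N : ℝ) ^ δ') (Real.log N ^ B)
          (coeffs F a n)).card : ℝ) ≤ (N : ℝ) ^ (-δ') * S.card →
        ({n : ℕ | n ∈ S ∧ ¬ Easy 𝒜 f d ((N : ℝ) ^ (min δ₁ δ₂)) (Real.log N ^ B)
          (coeffs F a n)}.ncard : ℝ) ≤ (N : ℝ) ^ (-(min δ₁ δ₂)) * S.card := by
      intro δ' hδ' S hS
      have h1 : {n : ℕ | n ∈ S ∧ ¬ Easy 𝒜 f d ((N : ℝ) ^ (min δ₁ δ₂)) (Real.log N ^ B)
          (coeffs F a n)} ⊆ ↑(S.filter fun n => ¬ Pool.Agent.R851.SK.EasyF d ((N : ℝ) ^ δ')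
            (Real.log N ^ B) (coeffs F a n)) := by
        rintro n ⟨hn, hn'⟩
        rw [Finset.mem_coe, Finset.mem_filter]
        refine ⟨hn, fun hE => hn' (heasy _ _ _ ?_)⟩
        intro b u hb hbX hu
        exact hE b u hb (fun i => (hbX i).trans (Real.rpow_le_rpow_of_exponent_le hNr hδ')) hu
      have h2 := Set.ncard_le_ncard h1 (Finset.finite_toSet _)
      rw [Set.ncard_coe_finset] at h2
      have h3 : (N : ℝ) ^ (-δ') ≤ (N : ℝ) ^ (-(min δ₁ δ₂)) :=
        Real.rpow_le_rpow_of_exponent_le hNr (by linarith)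
      calc _ ≤ _ := (Nat.cast_le (α := ℝ)).2 h2
        _ ≤ _ := hS
        _ ≤ _ := mul_le_mul_of_nonneg_right h3 (Nat.cast_nonneg _)
    constructor
    · have h1 := key δ₁ (min_le_left _ _) _ (hN₁ N hNN₁)
      rw [Nat.card_Ioc, show 2 * N - N = N by omega] at h1
      exact h1
    · exact key δ₂ (min_le_right _ _) _ (hN₂ N hNN₂)

end Pool.Agent.Results.MP_8d13b5_lc.ThinCoefficients
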