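import Pool.Agent.N63.US.FinV
import Pool.Agent.N63.US.MassP
import Pool.Agent.N63.US.GcdP
import Pool.Agent.N63.US.Gram
import Pool.Agent.N63.US.LXp
import Pool.Agent.N63.US.ConvP
import Pool.Agent.N63.US.TriGp
import Pool.Agent.N63.US.PairCountP
import Pool.Agent.N63.US.MomentP
import Pool.Agent.N63.US.A4p
import Pool.Agent.N63.US.A5p
import Pool.Agent.N63.US.A6p
import Pool.Agent.N63.US.BadClP
import Pool.Agent.N63.US.B1p
import Pool.Agent.N63.US.B2p
import Pool.Agent.N63.US.DaP
import Pool.Agent.N63.US.DbP
import Pool.Agent.N63.US.DcP
import Pool.Agent.N63.US.LeibP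
import Pool.Agent.N63.US.E1aP
import Pool.Agent.N63.US.E1bP
import Pool.Agent.N63.US.SubZp
import Pool.Agent.N63.US.F1Vp
import Pool.Agent.N63.US.F2Vp
import Pool.Agent.N63.US.F3Vp
import Pool.Agent.TH997.US.C9
import Pool.Agent.TH997.US.E2

/-!
# A universal Skolem set of natural density one

A number `n` is good at level `k` (with primes up to `i`) if there are at least `k` numbers `b`
such that for some prime `p ≤ i`: every monic integer polynomial of degree at most `k` with
coefficients in `[-k, k]` splits modulo `p`; `n` is congruent to `b` modulo `p - 1`;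
`4 k (k+1) (b+1) ≤ log_2 p`; and `n` modulo `p` is not a root of a nonzero integer polynomial of
degree at most `k` with coefficients below about `p ^ (1 / (4 (k+1)))`. This depends only on `n`
modulo `i!`, and makes no reference to recurrence sequences.

For every level almost all residue classes are good (second moment over the pairs `(p, b)`; the
variance is controlled by a sum of greatest common divisors over pairs of primes, by the pair sieve
and the Brun-Titchmarsh inequality in dyadic form; the primes which split all small polynomials
have positive relative mass by the pole of a Dedekind zeta function). Let `i k` be the least number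
such that at least a proportion `1 - 1 / (k + 1)` of the residue classes modulo `(i k)!` is good at
level `k` with primes up to `i k`, and let `N 0 < N 1 < ...` be computable thresholds. The set `S`
of the numbers `n` which are good at level `k` with primes up to `i k`, where `N k ≤ n < N (k+1)`,
has natural density one. For every integer linear recurrence sequence, degenerate or not, simple or
not, there is a computable level from which on every good `n` either lies in an explicit residue
class on which the sequence vanishes identically, or the term with index `n` is not divisible by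
one of the primes up to `i`. So the zeros in `S` are computed completely.

Key step. If `n` is congruent to `b` modulo `p - 1` and all characteristic roots lie in the field
with `p` elements, then `u n` is modulo `p` a polynomial in `n` with integer coefficients which are
small compared with `p`, because `b` is; if `p` divides `u n`, this polynomial vanishes
identically. So the components of `u` vanish at `k` different small `b` in the class of `n`
modulo a period modulo a fixed small prime; then by a `p`-adic argument all their nonzero values in
this class are at least `3 ^ (k / 2)` in absolute value.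

The design and a part of the lemmas are in the starting libraries `Pool/Agent/H692R2/USS` (helper692
and others) and `Pool/Agent/TH997/US` (helper997 and others), which were not finished. The other
pieces (`Pool/Agent/N63/US`) were proved by helper738, helper650, helper40, helper400, helper966,
helper434, helper558, helper424, helper273, helper592, helper227, helper615, helper953, helper543,
helper123, helper769, helper75, helper322, helper711, helper157, helper456, helper607, helper546
and helper63.
-/

set_option autoImplicit false

namespace Pool.Agent.Results.MP_8d13b5_lc.UniversalSkolemSet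

open Finset Pool.Agent.H692R2.USS Pool.Agent.TH997.US Pool.Agent.N63.US
open scoped Classical

theorem goodDensity : GoodDensity := by
  have hG : GcdSum := gcdSum conv (lx gram) (triG bt)
  exact a6 (fun k hk => a4 pairCount moment k hk (mass k) hG) (fun k hk => a5 badCl k hk)

theorem e1 : Pool.Agent.TH997.US.E1 := e1_of e1a (e1b leib binAnn)

/-- the set of the numbers `n` which are good at level `k`, where `N k ≤ n < N (k + 1)` -/
def SS (i N : ℕ → ℕ) : Set ℕ := {n | ∀ k, N k ≤ n → n < N (k + 1) → Good (i k) k n}

theorem nseq_strictMono : StrictMono NSeq := strictMono_nat_of_lt_succ NSeq_succ_lt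

theorem SS_eq : SS iSeq NSeq = S := by
  ext n
  have h1 := B2pAux.NSeq_lev n
  have h2 := B2pAux.lt_NSeq n
  constructor
  · intro h
    exact h (lev n) h1 h2
  · intro h k hk1 hk2
    have h3 : k = lev n := by
      have h4 : k ≤ lev n := le_lev hk1
      by_contra hne
      have h5 : k + 1 ≤ lev n := by omega
      have h6 := nseq_strictMono.monotone h5
      omega
    rw [h3]
    exact h

theorem result :
    -- good numbers: a periodic property, true for almost all residue classes
    (∀ i k n : ℕ, Good i k (n + i.factorial) ↔ Good i k n) ∧
    (∀ (k : ℕ) (ε : ℝ), 0 < ε → ∃ i0 : ℕ, ∀ i, i0 ≤ i →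
      (((Finset.range i.factorial).filter (fun n => ¬ Good i k n)).card : ℝ) ≤
        ε * i.factorial) ∧
    ∃ i N : ℕ → ℕ, Computable i ∧ Computable N ∧ StrictMono N ∧ N 0 = 0 ∧
      (∀ k, (k + 1) * ((Finset.range (i k).factorial).filter
        (fun n => ¬ Good (i k) k n)).card ≤ (i k).factorial) ∧
      -- the set of the `n` good at level `k` for `N k ≤ n < N (k + 1)` is computable, of density 1
      ComputablePred (fun n : ℕ => n ∈ SS i N) ∧
      Filter.Tendsto (fun X : ℕ => (((Finset.range X).filter (fun n => n ∈ SS i N)).card : ℝ) / X)
        Filter.atTop (nhds 1) ∧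
      -- one algorithm computes for each recurrence a level `(A p).1.1`, a threshold `(A p).1.2`,
      -- a modulus `(A p).2.1` and the list `(A p).2.2` of the residue classes of zeros
      (∃ A : List ℤ × List ℤ → (ℕ × ℕ) × ℕ × List ℕ, Computable A ∧
        ∀ (p : List ℤ × List ℤ) (u : ℕ → ℤ), IsLRS p u →
          1 ≤ (A p).2.1 ∧
          (∀ r ∈ (A p).2.2, r < (A p).2.1 ∧ ∀ l, u (r + (A p).2.1 * l) = 0) ∧
          (∀ j k n, (A p).1.1 ≤ k → Good j k n → (∀ q ≤ j, q.Prime → (q : ℤ) ∣ u n) →
            n % (A p).2.1 ∈ (A p).2.2) ∧
          (∀ n ∈ SS i N, (A p).1.2 ≤ n → (u n = 0 ↔ n % (A p).2.1 ∈ (A p).2.2))) ∧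
      -- the Skolem Problem for zeros in the set is decidable
      ComputablePred (fun p : List ℤ × List ℤ => ∃ u : ℕ → ℤ, IsLRS p u ∧
        ∃ n ∈ SS i N, u n = 0) := by
  have hgood := goodDensity
  obtain ⟨hN, hS⟩ := b1 hgood
  have hdens := b2 hgood
  obtain ⟨A, hA, hz⟩ := zerosV hN c9 da db dc e1 e2 (f1V binAnn subZ) f2V f3V
  have hz' : ∀ (p : List ℤ × List ℤ) (u : ℕ → ℤ), IsLRS p u →
      1 ≤ (A p).2.1 ∧
      (∀ r ∈ (A p).2.2, r < (A p).2.1 ∧ ∀ l, u (r + (A p).2.1 * l) = 0) ∧
      (∀ j k n, (A p).1.1 ≤ k → Good j k n → (∀ q ≤ j, q.Prime → (q : ℤ) ∣ u n) →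
        n % (A p).2.1 ∈ (A p).2.2) ∧
      (∀ n ∈ S, (A p).1.2 ≤ n → (u n = 0 ↔ n % (A p).2.1 ∈ (A p).2.2)) := by
    intro p u hu
    obtain ⟨h1, h2, h3, h4⟩ := hz p u hu
    refine ⟨h1, h2, h3, fun n hn hNn => ⟨fun h0 => ?_, fun hm => ?_⟩⟩
    · refine h4 n hn hNn fun q _ _ => ?_
      rw [h0]
      exact dvd_zero _
    · have h5 := (h2 _ hm).2 (n / (A p).2.1)
      rwa [Nat.mod_add_div] at h5
  refine ⟨B2pAux.good_add, hgood, iSeq, NSeq, B1pAux.iSeq_computable hgood, hN, nseq_strictMono,
    rfl, fun k => B1pAux.iSeq_spec hgood k, ?_⟩
  rw [SS_eq]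
  refine ⟨hS, ?_, ?_, ?_⟩
  · have h1 : Filter.Tendsto (fun X : ℕ => (1 : ℝ) -
        (((Finset.range X).filter (fun n => n ∉ S)).card : ℝ) / X) Filter.atTop (nhds (1 - 0)) :=
      tendsto_const_nhds.sub hdens
    rw [sub_zero] at h1
    refine h1.congr' ?_
    filter_upwards [Filter.eventually_gt_atTop 0] with X hX
    have hX' : (X : ℝ) ≠ 0 := by exact_mod_cast hX.ne'
    have h2 := Finset.card_filter_add_card_filter_not (s := Finset.range X) (fun n => n ∈ S)
    rw [Finset.card_range] at h2
    have h3 : (((Finset.range X).filter (fun n => n ∈ S)).card : ℝ) +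
        (((Finset.range X).filter (fun n => n ∉ S)).card : ℝ) = X := by exact_mod_cast h2
    rw [eq_div_iff hX', sub_mul, div_mul_cancel₀ _ hX']
    linarith
  · exact ⟨A, hA, hz'⟩
  · exact decV hS hdens hA fun p u hu => ⟨(hz' p u hu).1, (hz' p u hu).2.1, (hz' p u hu).2.2.2⟩

end Pool.Agent.Results.MP_8d13b5_lc.UniversalSkolemSet
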